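import Mathlib

/-!
# Flattened Stirling permutations with three runs (MP_793dac, Q1)

The number of flattened Stirling permutations of order `n` with exactly three runs is computed for
all `n ≥ 1`.  It equals the right-hand side of the identity of Q1 with coefficient `2` in front of
the second double sum; with coefficient `1` (as printed) the identity fails at `n = 5`.
-/

set_option autoImplicit false

namespace Pool.Agent.Results.MP_793dac_co.ThreeRuns

/-- `w` is a Stirling permutation of order `n`: each `i ∈ {1, …, n}` is used exactly twice, no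
other letter is used, and every letter `x` at a position strictly between two copies of `i`
satisfies `i < x`. -/
def IsStirling (n : ℕ) (w : List ℕ) : Prop :=
  (∀ i, w.count i = if 1 ≤ i ∧ i ≤ n then 2 else 0) ∧
    ∀ i x, List.Sublist [i, x, i] w → i < x

/-- The runs (maximal weakly increasing blocks of consecutive letters) of a word. -/
def runs : List ℕ → List (List ℕ)
  | [] => []
  | a :: t =>
    match runs t with
    | [] => [[a]]
    | r :: rs => if a ≤ r.headI then (a :: r) :: rs else [a] :: r :: rs

/-- The leading values of the runs, from left to right. -/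
def leadingValues (w : List ℕ) : List ℕ := (runs w).map List.headI

/-- The leading values of the runs are weakly increasing. -/
def Flattened (w : List ℕ) : Prop := (leadingValues w).Pairwise (· ≤ ·)

/-- Flattened Stirling permutations of order `n` with exactly three runs. -/
def flat3 (n : ℕ) : Set (List ℕ) := {w | IsStirling n w ∧ Flattened w ∧ (runs w).length = 3}

/-! ### Leading values, computed letter by letter -/

/-- leading values -/
def ld : List ℕ → List ℕ
  | [] => []
  | [a] => [a]
  | a :: b :: t => if a ≤ b then a :: (ld (b :: t)).tail else a :: ld (b :: t)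

lemma runs_cons (a : ℕ) (t : List ℕ) :
    ∃ r rs, runs (a :: t) = r :: rs ∧ r.headI = a := by
  cases h : runs t with
  | nil => exact ⟨[a], [], by simp [runs, h], rfl⟩
  | cons r rs =>
    by_cases h' : a ≤ r.headI
    · exact ⟨a :: r, rs, by simp [runs, h, h'], rfl⟩
    · exact ⟨[a], r :: rs, by simp [runs, h, h'], rfl⟩

lemma leads_eq (w : List ℕ) : leadingValues w = ld w := by
  induction w with
  | nil => rfl
  | cons a t ih =>
    cases t with
    | nil => rfl
    | cons b t =>
      obtain ⟨r, rs, h1, h2⟩ := runs_cons b t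
      unfold leadingValues at ih ⊢
      rw [h1] at ih
      have e : runs (a :: b :: t) = if a ≤ r.headI then (a :: r) :: rs else [a] :: r :: rs := by
        rw [runs, h1]
      rw [e, h2]
      rw [List.map_cons] at ih
      simp only [ld]
      rw [← ih]
      split_ifs with h
      · simp
      · simp

lemma runs_length (w : List ℕ) : (runs w).length = (ld w).length := by
  rw [← leads_eq, leadingValues, List.length_map]

lemma flattened_iff (w : List ℕ) : Flattened w ↔ (ld w).Pairwise (· ≤ ·) := by
  rw [Flattened, leads_eq]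

lemma ld_cons (a : ℕ) (t : List ℕ) : ∃ s, ld (a :: t) = a :: s := by
  cases t with
  | nil => exact ⟨[], rfl⟩
  | cons b t =>
    simp only [ld]
    split_ifs
    · exact ⟨_, rfl⟩
    · exact ⟨_, rfl⟩

lemma ld_append (u : List ℕ) (x y : ℕ) (v : List ℕ) :
    ld (u ++ x :: y :: v) =
      if x ≤ y then ld (u ++ [x]) ++ (ld (y :: v)).tail else ld (u ++ [x]) ++ ld (y :: v) := by
  induction u with
  | nil => simp [ld]
  | cons a u ih =>
    cases u with
    | nil =>
      simp only [List.nil_append, List.cons_append] at ih ⊢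
      rw [ld, ih]
      simp only [ld]
      split_ifs <;> simp
    | cons b u =>
      simp only [List.cons_append] at ih ⊢
      rw [ld, ih]
      conv_rhs => rw [ld]
      obtain ⟨s, hs⟩ := ld_cons b (u ++ [x])
      rw [hs]
      split_ifs <;> simp

lemma ld_ins (u : List ℕ) (x m : ℕ) (v : List ℕ) (hx : x < m) (hv : ∀ y ∈ v, y < m) :
    ld (u ++ x :: m :: m :: v) = ld (u ++ [x]) ++ ld v := by
  rw [ld_append, if_pos hx.le]
  congr 1
  cases v with
  | nil => simp [ld]
  | cons y v =>
    have : ¬ m ≤ y := not_le.mpr (hv y (by simp))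
    simp [ld, this]

lemma ld_nil_iff (w : List ℕ) : ld w = [] ↔ w = [] := by
  cases w with
  | nil => simp [ld]
  | cons a t =>
    obtain ⟨s, hs⟩ := ld_cons a t
    simp [hs]

/-! ### Inserting the two copies of the largest letter -/

/-- Insert `m m` after the first `i` letters of `w`. -/
def ins (m : ℕ) (w : List ℕ) (i : ℕ) : List ℕ := w.take i ++ m :: m :: w.drop i

lemma stir_mem {n : ℕ} {w : List ℕ} (h : IsStirling n w) {x : ℕ} (hx : x ∈ w) :
    1 ≤ x ∧ x ≤ n := by
  have h1 : 0 < w.count x := List.count_pos_iff.mpr hx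
  rw [h.1 x] at h1
  by_contra hc
  rw [if_neg hc] at h1
  omega

lemma stir_del {n : ℕ} {u v : List ℕ} (h : IsStirling (n + 1) (u ++ (n + 1) :: (n + 1) :: v)) :
    IsStirling n (u ++ v) := by
  refine ⟨fun i => ?_, fun i x hx => ?_⟩
  · have h1 := h.1 i
    simp only [List.count_append, List.count_cons] at h1 ⊢
    by_cases hi : i = n + 1
    · subst hi
      simp at h1 ⊢
      omega
    · have hb : ((n + 1) == i) = false := by simpa using fun h => hi h.symm
      simp only [hb] at h1
      simp at h1
      rw [h1]
      by_cases h2 : 1 ≤ i ∧ i ≤ n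
      · rw [if_pos h2, if_pos ⟨h2.1, by omega⟩]
      · rw [if_neg h2, if_neg (by omega)]
  · refine h.2 i x (hx.trans ?_)
    apply List.Sublist.append_left
    exact ((List.Sublist.refl v).cons _).cons _

lemma sub_aux (m x : ℕ) (u v : List ℕ) (hu : m ∉ u) (hv : m ∉ v) (hx : x ≠ m)
    (h : List.Sublist [m, x, m] (u ++ m :: m :: v)) : False := by
  induction u with
  | nil =>
    rw [List.nil_append] at h
    have h1 : List.Sublist [x, m] (m :: v) := by
      cases h with
      | cons _ h => cases h with
        | cons _ h => exact absurd (h.subset (by simp)) hv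
        | cons_cons _ h => exact absurd (h.subset (by simp)) hv
      | cons_cons _ h => exact h
    have h2 : List.Sublist [x, m] v := List.Sublist.of_cons_of_ne hx h1
    exact hv (h2.subset (by simp))
  | cons a u ih =>
    rw [List.cons_append] at h
    have ha : m ≠ a := fun e => hu (by simp [e])
    exact ih (fun e => hu (by simp [e])) (List.Sublist.of_cons_of_ne ha h)

lemma stir_ins {n : ℕ} {u v : List ℕ} (h : IsStirling n (u ++ v)) :
    IsStirling (n + 1) (u ++ (n + 1) :: (n + 1) :: v) := by
  have hlt : ∀ x ∈ u ++ v, x ≤ n := fun x hx => (stir_mem h hx).2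
  have hmu : n + 1 ∉ u := fun hc => by have := hlt _ (List.mem_append_left _ hc); omega
  have hmv : n + 1 ∉ v := fun hc => by have := hlt _ (List.mem_append_right _ hc); omega
  refine ⟨fun i => ?_, fun i x hx => ?_⟩
  · have h1 := h.1 i
    simp only [List.count_append, List.count_cons] at h1 ⊢
    by_cases hi : i = n + 1
    · subst hi
      simp at h1 ⊢
      omega
    · have hb : ((n + 1) == i) = false := by simpa using fun h => hi h.symm
      simp only [hb]
      simp
      rw [h1]
      by_cases h2 : 1 ≤ i ∧ i ≤ n
      · rw [if_pos h2, if_pos ⟨h2.1, by omega⟩]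
      · rw [if_neg h2, if_neg (by omega)]
  · -- every letter between two copies of `i` exceeds `i`
    have hle : ∀ y ∈ u ++ (n + 1) :: (n + 1) :: v, y ≤ n + 1 := by
      intro y hy
      simp only [List.mem_append, List.mem_cons] at hy
      rcases hy with hy | rfl | rfl | hy
      · have := hlt y (by simp [hy]); omega
      · exact le_rfl
      · exact le_rfl
      · have := hlt y (by simp [hy]); omega
    have hcount : List.count (n + 1) (u ++ (n + 1) :: (n + 1) :: v) = 2 := by
      rw [List.count_append, List.count_cons_self, List.count_cons_self,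
        List.count_eq_zero_of_not_mem hmu, List.count_eq_zero_of_not_mem hmv]
    by_cases hi : i = n + 1
    · subst hi
      by_cases hx' : x = n + 1
      · subst hx'
        have := hx.count_le (n + 1)
        rw [hcount] at this
        simp at this
      · exact (sub_aux (n + 1) x u v hmu hmv hx' hx).elim
    · have hi' : i ≤ n + 1 := hle i (hx.subset (by simp))
      by_cases hx' : x = n + 1
      · subst hx'; omega
      · have hf := hx.filter (fun y => decide (y ≠ n + 1))
        have e1 : List.filter (fun y => decide (y ≠ n + 1)) [i, x, i] = [i, x, i] := by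
          simp [hi, hx']
        have e2 : List.filter (fun y => decide (y ≠ n + 1)) (u ++ (n + 1) :: (n + 1) :: v)
            = u ++ v := by
          rw [List.filter_append]
          simp only [List.filter_cons, ne_eq, not_true_eq_false, decide_false]
          rw [List.filter_eq_self.mpr, List.filter_eq_self.mpr]
          · rfl
          · intro y hy
            have := hlt y (by simp [hy])
            simp; omega
          · intro y hy
            have := hlt y (by simp [hy])
            simp; omega
        rw [e1, e2] at hf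
        exact h.2 i x hf

lemma stir_succ (n : ℕ) (w : List ℕ) :
    IsStirling (n + 1) w ↔ ∃ w' i, IsStirling n w' ∧ i ≤ w'.length ∧ w = ins (n + 1) w' i := by
  constructor
  · intro h
    have hc : w.count (n + 1) = 2 := by rw [h.1, if_pos (by omega)]
    have hm : n + 1 ∈ w := by
      rw [← List.count_pos_iff]; omega
    obtain ⟨a, bs, rfl, ha⟩ := List.eq_append_cons_of_mem hm
    have hc2 : bs.count (n + 1) = 1 := by
      rw [List.count_append, List.count_cons_self, List.count_eq_zero_of_not_mem ha] at hc
      omega
    have hm2 : n + 1 ∈ bs := by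
      rw [← List.count_pos_iff]; omega
    obtain ⟨b, c, rfl, hb⟩ := List.eq_append_cons_of_mem hm2
    have hbnil : b = [] := by
      rw [List.eq_nil_iff_forall_not_mem]
      intro x hx
      have h1 : List.Sublist [n + 1, x, n + 1] (a ++ (n + 1) :: (b ++ (n + 1) :: c)) := by
        have s1 : List.Sublist [x] b := List.singleton_sublist.mpr hx
        have s2 : List.Sublist [n + 1] ((n + 1) :: c) := by simp
        have s3 : List.Sublist ([x] ++ [n + 1]) (b ++ (n + 1) :: c) := s1.append s2
        have s4 : List.Sublist ((n + 1) :: ([x] ++ [n + 1])) ((n + 1) :: (b ++ (n + 1) :: c)) :=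
          s3.cons_cons _
        exact s4.trans (List.sublist_append_right _ _)
      have h2 := h.2 _ _ h1
      have h3 := stir_mem h (x := x) (by simp [hx])
      omega
    subst hbnil
    rw [List.nil_append] at h ⊢
    refine ⟨a ++ c, a.length, stir_del h, by simp, ?_⟩
    simp [ins]
  · rintro ⟨w', i, h, hi, rfl⟩
    unfold ins
    apply stir_ins
    rwa [List.take_append_drop]

lemma ins_inj {m : ℕ} {w w' : List ℕ} {i i' : ℕ} (hw : m ∉ w) (hw' : m ∉ w')
    (hi : i ≤ w.length) (hi' : i' ≤ w'.length) (h : ins m w i = ins m w' i') :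
    w = w' ∧ i = i' := by
  have key : ∀ (u v u' v' : List ℕ), m ∉ u → m ∉ u' → u ++ m :: m :: v = u' ++ m :: m :: v' →
      u = u' ∧ v = v' := by
    intro u
    induction u with
    | nil =>
      intro v u' v' _ hu' e
      cases u' with
      | nil => simpa using e
      | cons a u' =>
        simp only [List.nil_append, List.cons_append, List.cons.injEq] at e
        exact absurd (by simp [e.1]) hu'
    | cons a u ih =>
      intro v u' v' hu hu' e
      cases u' with
      | nil =>
        simp only [List.nil_append, List.cons_append, List.cons.injEq] at e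
        exact absurd (by simp [e.1]) hu
      | cons b u' =>
        simp only [List.cons_append, List.cons.injEq] at e
        obtain ⟨h1, h2⟩ := ih v u' v' (fun hc => hu (by simp [hc])) (fun hc => hu' (by simp [hc]))
          e.2
        exact ⟨by rw [e.1, h1], h2⟩
  obtain ⟨h1, h2⟩ := key _ _ _ _ (fun hc => hw (List.mem_of_mem_take hc))
    (fun hc => hw' (List.mem_of_mem_take hc)) h
  constructor
  · rw [← List.take_append_drop i w, ← List.take_append_drop i' w', h1, h2]
  · have := congrArg List.length h1
    rw [List.length_take, List.length_take] at this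
    omega

/-! ### Sorted blocks -/

lemma ld_sorted (a : ℕ) (t : List ℕ) (h : (a :: t).Pairwise (· ≤ ·)) : ld (a :: t) = [a] := by
  induction t generalizing a with
  | nil => rfl
  | cons b t ih =>
    have h1 : a ≤ b := List.rel_of_pairwise_cons h (by simp)
    have h2 : (b :: t).Pairwise (· ≤ ·) := (List.pairwise_cons.mp h).2
    rw [ld, if_pos h1, ih b h2]
    rfl

lemma sorted_of_ld (a : ℕ) (t : List ℕ) (h : (ld (a :: t)).length = 1) :
    (a :: t).Pairwise (· ≤ ·) := by
  induction t generalizing a with
  | nil => simp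
  | cons b t ih =>
    rw [ld] at h
    split_ifs at h with hab
    · obtain ⟨s, hs⟩ := ld_cons b t
      rw [hs] at h
      have h1 : (ld (b :: t)).length = 1 := by
        rw [hs]; simpa using h
      have h2 := ih b h1
      rw [List.pairwise_cons]
      refine ⟨?_, h2⟩
      intro x hx
      rcases List.mem_cons.mp hx with rfl | hx
      · exact hab
      · exact hab.trans ((List.pairwise_cons.mp h2).1 x hx)
    · obtain ⟨s, hs⟩ := ld_cons b t
      rw [hs] at h
      simp at h

lemma two_runs (w : List ℕ) (h : (ld w).length = 2) :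
    ∃ U x y B, w = U ++ x :: y :: B ∧ (U ++ [x]).Pairwise (· ≤ ·) ∧ y < x ∧
      (y :: B).Pairwise (· ≤ ·) := by
  induction w with
  | nil => simp [ld] at h
  | cons a t ih =>
    cases t with
    | nil => simp [ld] at h
    | cons b t =>
      rw [ld] at h
      obtain ⟨s, hs⟩ := ld_cons b t
      split_ifs at h with hab
      · have h1 : (ld (b :: t)).length = 2 := by
          rw [hs] at h ⊢; simpa using h
        obtain ⟨U, x, y, B, e, h2, h3, h4⟩ := ih h1
        refine ⟨a :: U, x, y, B, by rw [e]; rfl, ?_, h3, h4⟩
        rw [List.cons_append, List.pairwise_cons]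
        refine ⟨?_, h2⟩
        cases U with
        | nil =>
          simp only [List.nil_append, List.cons.injEq] at e
          intro z hz
          simp at hz
          rw [hz, ← e.1]; exact hab
        | cons c U =>
          simp only [List.cons_append, List.cons.injEq] at e
          rw [← e.1] at h2 ⊢
          intro z hz
          rcases List.mem_cons.mp hz with rfl | hz
          · exact hab
          · exact hab.trans ((List.pairwise_cons.mp h2).1 z hz)
      · have h1 : (ld (b :: t)).length = 1 := by
          simpa using h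
        exact ⟨[], a, b, t, rfl, by simp, by omega, sorted_of_ld b t h1⟩

/-- leading values of two sorted blocks -/
lemma ld_two (a : ℕ) (U : List ℕ) (x y : ℕ) (B : List ℕ) (h1 : (U ++ [x]).Pairwise (· ≤ ·))
    (hh : (U ++ [x]).headI = a) (h2 : y < x) (h3 : (y :: B).Pairwise (· ≤ ·)) :
    ld (U ++ x :: y :: B) = [a, y] := by
  rw [ld_append, if_neg (by omega), ld_sorted y B h3]
  cases U with
  | nil => simp at hh; simp [ld, hh]
  | cons b U =>
    rw [List.cons_append] at h1 ⊢
    rw [ld_sorted b _ h1]
    simp at hh
    simp [hh]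

/-- The leading values after inserting a large letter at a cut. -/
def spl (w : List ℕ) (i : ℕ) : List ℕ := ld (w.take i) ++ ld (w.drop i)

lemma ld_ins_spl (m : ℕ) (w : List ℕ) (i : ℕ) (hi : i < w.length) (hw : ∀ x ∈ w, x < m) :
    ld (ins m w (i + 1)) = spl w (i + 1) := by
  unfold ins spl
  rcases List.eq_nil_or_concat (w.take (i + 1)) with h | ⟨u, x, h⟩
  · exfalso
    have := congrArg List.length h
    simp at this
    rw [this] at hi
    simp at hi
  · have hx : x ∈ w := by
      apply List.mem_of_mem_take (i := i + 1)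
      rw [h]; simp
    have h' : w.take (i + 1) = u ++ [x] := by rw [h]; simp
    rw [h', List.append_assoc, List.singleton_append, ld_ins u x m _ (hw x hx)]
    intro y hy
    exact hw y (List.mem_of_mem_drop hy)

/-- the two possibilities at a cut -/
lemma spl_cases (w : List ℕ) (i : ℕ) (hi : i < w.length) :
    (ld w).Sublist (spl w (i + 1)) ∧
      (spl w (i + 1) = ld w ∨ (spl w (i + 1)).length = (ld w).length + 1) := by
  unfold spl
  rcases List.eq_nil_or_concat (w.take (i + 1)) with h | ⟨u, x, h⟩
  · exfalso
    have := congrArg List.length h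
    simp at this
    rw [this] at hi
    simp at hi
  · have h' : w.take (i + 1) = u ++ [x] := by rw [h]; simp
    have e : w = (u ++ [x]) ++ w.drop (i + 1) := by
      rw [← h', List.take_append_drop]
    cases hd : w.drop (i + 1) with
    | nil =>
      rw [hd, List.append_nil] at e
      rw [h', ← e]
      simp [ld]
    | cons y v =>
      rw [hd, List.append_assoc, List.singleton_append] at e
      have e2 := ld_append u x y v
      rw [← e] at e2
      rw [h', e2]
      obtain ⟨s, hs⟩ := ld_cons y v
      split_ifs with hxy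
      · rw [hs]
        refine ⟨?_, Or.inr (by simp; omega)⟩
        apply List.Sublist.append_left
        simp
      · exact ⟨List.Sublist.refl _, Or.inl rfl⟩

/-- The number of cuts that do not create a new run is the number of runs. -/
lemma cut_count (w : List ℕ) :
    ∑ i ∈ Finset.range w.length, (if (spl w (i + 1)).length = (ld w).length then 1 else 0)
      = (ld w).length := by
  induction w with
  | nil => simp [ld]
  | cons a t ih =>
    cases t with
    | nil => simp [ld, spl]
    | cons b t =>
      rw [List.length_cons, Finset.sum_range_succ']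
      have e0 : (spl (a :: b :: t) (0 + 1)).length = (ld (b :: t)).length + 1 := by
        simp [spl, ld]
      by_cases hab : a ≤ b
      · obtain ⟨s, hs⟩ := ld_cons b t
        have e1 : (ld (a :: b :: t)).length = (ld (b :: t)).length := by
          rw [ld, if_pos hab, hs]; simp
        have e2 : ∀ i ∈ Finset.range (b :: t).length,
            (if (spl (a :: b :: t) (i + 1 + 1)).length = (ld (a :: b :: t)).length then 1 else 0)
            = (if (spl (b :: t) (i + 1)).length = (ld (b :: t)).length then 1 else 0) := by
          intro i _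
          have : (spl (a :: b :: t) (i + 1 + 1)).length = (spl (b :: t) (i + 1)).length := by
            unfold spl
            simp only [List.take_succ_cons, List.drop_succ_cons, List.length_append]
            congr 1
            rw [ld, if_pos hab]
            obtain ⟨s, hs⟩ := ld_cons b (List.take i t)
            rw [hs]; simp
          rw [this, e1]
        rw [Finset.sum_congr rfl e2, ih, e0, e1, if_neg (by omega)]
        rfl
      · have e1 : (ld (a :: b :: t)).length = (ld (b :: t)).length + 1 := by
          rw [ld, if_neg hab]; simp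
        have e2 : ∀ i ∈ Finset.range (b :: t).length,
            (if (spl (a :: b :: t) (i + 1 + 1)).length = (ld (a :: b :: t)).length then 1 else 0)
            = (if (spl (b :: t) (i + 1)).length = (ld (b :: t)).length then 1 else 0) := by
          intro i _
          have : (spl (a :: b :: t) (i + 1 + 1)).length = (spl (b :: t) (i + 1)).length + 1 := by
            unfold spl
            simp only [List.take_succ_cons, List.drop_succ_cons, List.length_append]
            rw [ld, if_neg hab]
            simp only [List.length_cons]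
            ring
          rw [this, e1]
          simp
        rw [Finset.sum_congr rfl e2, ih, e0, e1, if_pos rfl]

/-! ### The recursive enumeration -/

/-- All flattened Stirling permutations of order `n + 1`. -/
def Fl : ℕ → Finset (List ℕ)
  | 0 => {[1, 1]}
  | n + 1 => (Fl n).biUnion fun w =>
      ((Finset.range w.length).filter fun i => (spl w (i + 1)).Pairwise (· ≤ ·)).image
        fun i => ins (n + 2) w (i + 1)

lemma stir_zero (w : List ℕ) : IsStirling 0 w ↔ w = [] := by
  constructor
  · intro h
    rw [List.eq_nil_iff_forall_not_mem]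
    intro x hx
    have := stir_mem h hx
    omega
  · rintro rfl
    refine ⟨fun i => ?_, fun i x hx => ?_⟩
    · rw [if_neg (by omega)]; rfl
    · simp at hx

lemma mem_Fl (n : ℕ) (w : List ℕ) :
    w ∈ Fl n ↔ IsStirling (n + 1) w ∧ (ld w).Pairwise (· ≤ ·) := by
  induction n generalizing w with
  | zero =>
    rw [Fl, Finset.mem_singleton, stir_succ]
    constructor
    · rintro rfl
      refine ⟨⟨[], 0, (stir_zero _).mpr rfl, by simp, rfl⟩, by simp [ld]⟩
    · rintro ⟨⟨w', i, h1, h2, h3⟩, -⟩
      rw [stir_zero] at h1
      subst h1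
      rw [h3]; simp [ins]
  | succ n ih =>
    rw [Fl, Finset.mem_biUnion]
    constructor
    · rintro ⟨w', hw', hw⟩
      rw [ih] at hw'
      rw [Finset.mem_image] at hw
      obtain ⟨i, hi, rfl⟩ := hw
      rw [Finset.mem_filter, Finset.mem_range] at hi
      have hlt : ∀ x ∈ w', x < n + 2 := fun x hx => by
        have := stir_mem hw'.1 hx; omega
      refine ⟨?_, ?_⟩
      · rw [stir_succ]
        exact ⟨w', i + 1, hw'.1, by omega, rfl⟩
      · rw [ld_ins_spl _ _ _ hi.1 hlt]
        exact hi.2
    · rintro ⟨h1, h2⟩
      rw [stir_succ] at h1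
      obtain ⟨w', i, h3, h4, rfl⟩ := h1
      have hlt : ∀ x ∈ w', x < n + 2 := fun x hx => by
        have := stir_mem h3 hx; omega
      have hne : w' ≠ [] := by
        rintro rfl
        have := h3.1 1
        simp at this
      cases i with
      | zero =>
        exfalso
        cases w' with
        | nil => exact hne rfl
        | cons a t =>
          have ha := hlt a (by simp)
          simp only [ins, List.take_zero, List.drop_zero, List.nil_append] at h2
          rw [ld, if_pos le_rfl, ld, if_neg (by omega)] at h2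
          obtain ⟨s, hs⟩ := ld_cons a t
          rw [hs] at h2
          simp only [List.tail_cons, List.pairwise_cons] at h2
          have := h2.1 a (by simp)
          omega
      | succ i =>
        rw [ld_ins_spl _ _ _ (by omega) hlt] at h2
        refine ⟨w', ?_, ?_⟩
        · rw [ih]
          exact ⟨h3, h2.sublist (spl_cases w' i (by omega)).1⟩
        · rw [Finset.mem_image]
          refine ⟨i, ?_, rfl⟩
          rw [Finset.mem_filter, Finset.mem_range]
          exact ⟨by omega, h2⟩

lemma Fl_lt {n : ℕ} {w : List ℕ} (h : w ∈ Fl n) : ∀ x ∈ w, x < n + 2 := fun x hx => by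
  rw [mem_Fl] at h
  have := stir_mem h.1 hx
  omega

lemma Fl_length {n : ℕ} {w : List ℕ} (h : w ∈ Fl n) : w.length = 2 * (n + 1) := by
  induction n generalizing w with
  | zero =>
    rw [Fl, Finset.mem_singleton] at h
    rw [h]; rfl
  | succ n ih =>
    rw [Fl, Finset.mem_biUnion] at h
    obtain ⟨w', hw', hw⟩ := h
    rw [Finset.mem_image] at hw
    obtain ⟨i, hi, rfl⟩ := hw
    rw [Finset.mem_filter, Finset.mem_range] at hi
    have := ih hw'
    simp only [ins, List.length_append, List.length_take, List.length_cons, List.length_drop]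
    omega

/-- Summation over the next order. -/
lemma sum_Fl (n : ℕ) (f : List ℕ → ℕ) :
    ∑ w ∈ Fl (n + 1), f w = ∑ w ∈ Fl n, ∑ i ∈ Finset.range w.length,
      if (spl w (i + 1)).Pairwise (· ≤ ·) then f (ins (n + 2) w (i + 1)) else 0 := by
  rw [Fl, Finset.sum_biUnion]
  · apply Finset.sum_congr rfl
    intro w hw
    rw [Finset.sum_image, Finset.sum_filter]
    intro i hi j hj hij
    have hi' := (Finset.mem_filter.mp hi).1
    have hj' := (Finset.mem_filter.mp hj).1
    rw [Finset.mem_range] at hi' hj'
    have hm : n + 2 ∉ w := fun hc => by have := Fl_lt hw _ hc; omega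
    have := (ins_inj hm hm (by omega) (by omega) hij).2
    omega
  · intro w hw w' hw' hne
    rw [Function.onFun, Finset.disjoint_left]
    intro x hx hx'
    rw [Finset.mem_image] at hx hx'
    obtain ⟨i, hi, rfl⟩ := hx
    obtain ⟨j, hj, e⟩ := hx'
    rw [Finset.mem_filter, Finset.mem_range] at hi hj
    have hm : n + 2 ∉ w := fun hc => by have := Fl_lt hw _ hc; omega
    have hm' : n + 2 ∉ w' := fun hc => by have := Fl_lt hw' _ hc; omega
    exact hne (ins_inj hm hm' (by omega) (by omega) e.symm).1

/-- number of cuts with exactly `k` resulting runs, still flattened -/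
def c (k : ℕ) (w : List ℕ) : ℕ :=
  ∑ i ∈ Finset.range w.length,
    if (spl w (i + 1)).Pairwise (· ≤ ·) then
      (if (spl w (i + 1)).length = k then 1 else 0) else 0

lemma sum_Fl_c (n k : ℕ) :
    ∑ w ∈ Fl (n + 1), (if (ld w).length = k then 1 else 0) = ∑ w ∈ Fl n, c k w := by
  rw [sum_Fl]
  apply Finset.sum_congr rfl
  intro w hw
  unfold c
  apply Finset.sum_congr rfl
  intro i hi
  rw [ld_ins_spl _ _ _ (Finset.mem_range.mp hi) (Fl_lt hw)]

/-- If `w` is flattened with `k` runs then exactly `k` cuts keep the number of runs. -/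
lemma c_same (w : List ℕ) (hw : (ld w).Pairwise (· ≤ ·)) : c (ld w).length w = (ld w).length := by
  conv_rhs => rw [← cut_count w]
  unfold c
  apply Finset.sum_congr rfl
  intro i hi
  rcases (spl_cases w i (Finset.mem_range.mp hi)).2 with h | h
  · rw [h, if_pos hw]
  · have hne : (spl w (i + 1)).length ≠ (ld w).length := by omega
    simp [hne]

lemma c_other (w : List ℕ) (k : ℕ) (h1 : (ld w).length ≠ k) (h2 : (ld w).length + 1 ≠ k) :
    c k w = 0 := by
  unfold c
  apply Finset.sum_eq_zero
  intro i hi
  rcases (spl_cases w i (Finset.mem_range.mp hi)).2 with h | h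
  · rw [h, if_neg h1]; simp
  · rw [h, if_neg h2]; simp

/-- Cuts of a sorted word. -/
lemma spl_sorted (a : ℕ) (t : List ℕ) (h : (a :: t).Pairwise (· ≤ ·)) (i : ℕ) (hi : i < t.length) :
    spl (a :: t) (i + 1) = [a, t.getD i 0] ∧ a ≤ t.getD i 0 := by
  have hd : t.drop i = t.getD i 0 :: t.drop (i + 1) := by
    rw [List.drop_eq_getElem_cons hi, List.getD_eq_getElem _ _ hi]
  unfold spl
  rw [List.take_succ_cons, List.drop_succ_cons, hd, ld_sorted, ld_sorted]
  · refine ⟨rfl, ?_⟩
    rw [List.getD_eq_getElem _ _ hi]
    exact (List.pairwise_cons.mp h).1 _ (List.getElem_mem hi)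
  · rw [← hd]
    exact (List.pairwise_cons.mp h).2.sublist (List.drop_sublist i t)
  · exact h.sublist ((List.take_sublist i t).cons_cons a)

lemma c_sorted (w : List ℕ) (h : (ld w).length = 1) : c 2 w = w.length - 1 := by
  cases w with
  | nil => simp [ld] at h
  | cons a t =>
    have hs := sorted_of_ld a t h
    unfold c
    rw [List.length_cons, Finset.sum_range_succ]
    have e1 : ∀ i ∈ Finset.range t.length, (if (spl (a :: t) (i + 1)).Pairwise (· ≤ ·) then
      (if (spl (a :: t) (i + 1)).length = 2 then 1 else 0) else 0) = 1 := by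
      intro i hi
      obtain ⟨h1, h2⟩ := spl_sorted a t hs i (Finset.mem_range.mp hi)
      rw [h1]
      have : ([a, t.getD i 0] : List ℕ).Pairwise (· ≤ ·) := List.pairwise_pair.mpr h2
      rw [if_pos this]
      rfl
    rw [Finset.sum_congr rfl e1]
    have e2 : (spl (a :: t) (t.length + 1)).length = 1 := by
      unfold spl
      rw [List.take_of_length_le (by simp), List.drop_of_length_le (by simp), List.length_append, h]
      rfl
    rw [e2]
    simp

/-! ### Words with two runs -/

lemma cut_sum (a b : ℕ) (f : ℕ → ℕ) :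
    ∑ i ∈ Finset.range (a + b + 3), f i
      = ∑ i ∈ Finset.range (a + 1), f i + f (a + 1) + ∑ j ∈ Finset.range b, f (a + 2 + j)
        + f (a + 2 + b) := by
  rw [show a + b + 3 = (a + 2 + b) + 1 by ring, Finset.sum_range_succ, Finset.sum_range_add,
    Finset.sum_range_succ _ (a + 1)]

/-- Two-run words: the data. -/
structure Two (h : ℕ) (A : List ℕ) (x y : ℕ) (B : List ℕ) : Prop where
  s1 : (h :: (A ++ [x])).Pairwise (· ≤ ·)
  hy : h ≤ y
  yx : y < x
  s2 : (y :: B).Pairwise (· ≤ ·)

lemma two_of (w : List ℕ) (h : (ld w).length = 2) (hs : (ld w).Pairwise (· ≤ ·)) :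
    ∃ a A x y B, w = a :: (A ++ x :: y :: B) ∧ Two a A x y B := by
  obtain ⟨U, x, y, B, e, h1, h2, h3⟩ := two_runs w h
  cases U with
  | nil =>
    exfalso
    rw [List.nil_append] at e
    rw [e, ld, if_neg (by omega), ld_sorted y B h3] at hs
    have := List.pairwise_pair.mp hs
    omega
  | cons a A =>
    refine ⟨a, A, x, y, B, by rw [e]; rfl, ⟨by simpa using h1, ?_, h2, h3⟩⟩
    have h4 := ld_two a (a :: A) x y B h1 rfl h2 h3
    rw [e, h4] at hs
    exact List.pairwise_pair.mp hs

section
variable {h : ℕ} {A : List ℕ} {x y : ℕ} {B : List ℕ}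

lemma cut_left (T : Two h A x y B) (i : ℕ) (hi : i < A.length + 1) :
    spl (h :: (A ++ x :: y :: B)) (i + 1) = [h, (A ++ [x]).getD i 0, y] ∧
      h ≤ (A ++ [x]).getD i 0 := by
  have hs := (List.pairwise_cons.mp T.s1)
  have hlen : i < (A ++ [x]).length := by simpa using hi
  have hd : (A ++ [x]).drop i = (A ++ [x]).getD i 0 :: (A ++ [x]).drop (i + 1) := by
    rw [List.drop_eq_getElem_cons hlen, List.getD_eq_getElem _ _ hlen]
  have e1 : List.take i (A ++ x :: y :: B) = List.take i (A ++ [x]) := by
    rw [show A ++ x :: y :: B = (A ++ [x]) ++ y :: B by simp, List.take_append_of_le_length]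
    omega
  have e2 : List.drop i (A ++ x :: y :: B) = List.drop i A ++ x :: y :: B := by
    rw [List.drop_append_of_le_length (by omega)]
  have e3 : List.drop i A ++ [x] = List.drop i (A ++ [x]) := by
    rw [List.drop_append_of_le_length (by omega)]
  unfold spl
  rw [List.take_succ_cons, List.drop_succ_cons, e1, e2]
  rw [ld_two ((A ++ [x]).getD i 0) (List.drop i A) x y B _ _ T.yx T.s2, ld_sorted]
  · refine ⟨rfl, ?_⟩
    rw [List.getD_eq_getElem _ _ hlen]
    exact hs.1 _ (List.getElem_mem hlen)
  · exact T.s1.sublist ((List.take_sublist i _).cons_cons h)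
  · rw [e3]; exact hs.2.sublist (List.drop_sublist _ _)
  · rw [e3, hd]; rfl

lemma cut_mid (T : Two h A x y B) :
    spl (h :: (A ++ x :: y :: B)) (A.length + 1 + 1) = [h, y] := by
  have e1 : List.take (A.length + 1) (A ++ x :: y :: B) = A ++ [x] := by
    rw [show A ++ x :: y :: B = (A ++ [x]) ++ y :: B by simp]
    rw [List.take_append_of_le_length (by simp), List.take_of_length_le (by simp)]
  have e2 : List.drop (A.length + 1) (A ++ x :: y :: B) = y :: B := by
    rw [show A ++ x :: y :: B = (A ++ [x]) ++ y :: B by simp]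
    rw [List.drop_append_of_le_length (by simp), List.drop_of_length_le (by simp)]
    rfl
  unfold spl
  rw [List.take_succ_cons, List.drop_succ_cons, e1, e2, ld_sorted _ _ T.s1, ld_sorted _ _ T.s2]
  rfl

lemma cut_right (T : Two h A x y B) (j : ℕ) (hj : j < B.length) :
    spl (h :: (A ++ x :: y :: B)) (A.length + 2 + j + 1) = [h, y, B.getD j 0] ∧
      y ≤ B.getD j 0 := by
  have e1 : List.take (A.length + 2 + j) (A ++ x :: y :: B) = A ++ x :: y :: B.take j := by
    rw [show A ++ x :: y :: B = (A ++ [x, y]) ++ B by simp, List.take_append,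
      List.take_of_length_le (by simp)]
    simp
  have e2 : List.drop (A.length + 2 + j) (A ++ x :: y :: B) = B.drop j := by
    rw [show A ++ x :: y :: B = (A ++ [x, y]) ++ B by simp, List.drop_append,
      List.drop_of_length_le (by simp)]
    simp
  have hd : B.drop j = B.getD j 0 :: B.drop (j + 1) := by
    rw [List.drop_eq_getElem_cons hj, List.getD_eq_getElem _ _ hj]
  have hs := (List.pairwise_cons.mp T.s2)
  unfold spl
  rw [List.take_succ_cons, List.drop_succ_cons, e1, e2, hd]
  rw [show h :: (A ++ x :: y :: List.take j B) = (h :: A) ++ x :: y :: List.take j B by rfl,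
    ld_two h (h :: A) x y (B.take j) (by simpa using T.s1) rfl T.yx
    (T.s2.sublist ((List.take_sublist j B).cons_cons y)), ld_sorted]
  · refine ⟨rfl, ?_⟩
    rw [List.getD_eq_getElem _ _ hj]
    exact hs.1 _ (List.getElem_mem hj)
  · rw [← hd]; exact hs.2.sublist (List.drop_sublist _ _)

lemma cut_end (T : Two h A x y B) :
    spl (h :: (A ++ x :: y :: B)) (A.length + 2 + B.length + 1) = [h, y] := by
  unfold spl
  rw [List.take_of_length_le (by simp; omega), List.drop_of_length_le (by simp; omega)]
  have := ld_two h (h :: A) x y B (by simpa using T.s1) rfl T.yx T.s2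
  rw [List.cons_append] at this
  rw [this]
  rfl

lemma sum_getD (l : List ℕ) (p : ℕ → Prop) [DecidablePred p] :
    ∑ i ∈ Finset.range l.length, (if p (l.getD i 0) then 1 else 0) = l.countP (fun z => p z) := by
  induction l with
  | nil => simp
  | cons a l ih =>
    rw [List.length_cons, Finset.sum_range_succ', List.countP_cons]
    simp only [List.getD_cons_succ, List.getD_cons_zero]
    rw [ih]
    by_cases hp : p a <;> simp [hp]

lemma c3_two (T : Two h A x y B) :
    c 3 (h :: (A ++ x :: y :: B)) = A.countP (fun z => z ≤ y) + B.length := by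
  have hlen : (h :: (A ++ x :: y :: B)).length = A.length + B.length + 3 := by
    simp; ring
  unfold c
  rw [hlen, cut_sum]
  have hx := T.yx
  have f1 : ∀ i ∈ Finset.range (A.length + 1),
      (if (spl (h :: (A ++ x :: y :: B)) (i + 1)).Pairwise (· ≤ ·) then
      (if (spl (h :: (A ++ x :: y :: B)) (i + 1)).length = 3 then 1 else 0) else 0)
      = (if (A ++ [x]).getD i 0 ≤ y then 1 else 0) := by
    intro i hi
    obtain ⟨h1, h2⟩ := cut_left T i (Finset.mem_range.mp hi)
    rw [h1]
    by_cases hc : (A ++ [x]).getD i 0 ≤ y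
    · have : ([h, (A ++ [x]).getD i 0, y] : List ℕ).Pairwise (· ≤ ·) := by
        rw [List.pairwise_cons]
        refine ⟨?_, List.pairwise_pair.mpr hc⟩
        intro z hz
        simp only [List.mem_cons, List.not_mem_nil, or_false] at hz
        rcases hz with rfl | rfl
        · exact h2
        · exact T.hy
      rw [if_pos this, if_pos hc]; rfl
    · have : ¬ ([h, (A ++ [x]).getD i 0, y] : List ℕ).Pairwise (· ≤ ·) := by
        intro hp
        exact hc (List.pairwise_pair.mp (List.pairwise_cons.mp hp).2)
      rw [if_neg this, if_neg hc]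
  have f3 : ∀ j ∈ Finset.range B.length,
      (if (spl (h :: (A ++ x :: y :: B)) (A.length + 2 + j + 1)).Pairwise (· ≤ ·) then
      (if (spl (h :: (A ++ x :: y :: B)) (A.length + 2 + j + 1)).length = 3 then 1 else 0) else 0)
      = 1 := by
    intro j hj
    obtain ⟨h1, h2⟩ := cut_right T j (Finset.mem_range.mp hj)
    rw [h1]
    have : ([h, y, B.getD j 0] : List ℕ).Pairwise (· ≤ ·) := by
      rw [List.pairwise_cons]
      refine ⟨?_, List.pairwise_pair.mpr h2⟩
      intro z hz
      simp only [List.mem_cons, List.not_mem_nil, or_false] at hz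
      rcases hz with rfl | rfl
      · exact T.hy
      · exact T.hy.trans h2
    rw [if_pos this]; rfl
  rw [Finset.sum_congr rfl f1, Finset.sum_congr rfl f3, cut_mid T, cut_end T]
  have e : A.length + 1 = (A ++ [x]).length := by simp
  rw [e, sum_getD (A ++ [x]) (fun z => z ≤ y), List.countP_append]
  simp [hx]

/-- Inserting at the end of the first run. -/
lemma ins_mid (m : ℕ) :
    ins m (h :: (A ++ x :: y :: B)) (A.length + 1 + 1) = h :: ((A ++ [x, m]) ++ m :: y :: B) := by
  have e1 : List.take (A.length + 1) (A ++ x :: y :: B) = A ++ [x] := by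
    rw [show A ++ x :: y :: B = (A ++ [x]) ++ y :: B by simp]
    rw [List.take_append_of_le_length (by simp), List.take_of_length_le (by simp)]
  have e2 : List.drop (A.length + 1) (A ++ x :: y :: B) = y :: B := by
    rw [show A ++ x :: y :: B = (A ++ [x]) ++ y :: B by simp]
    rw [List.drop_append_of_le_length (by simp), List.drop_of_length_le (by simp)]
    rfl
  unfold ins
  rw [List.take_succ_cons, List.drop_succ_cons, e1, e2]
  simp

lemma ins_end (m : ℕ) :
    ins m (h :: (A ++ x :: y :: B)) (A.length + 2 + B.length + 1)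
      = h :: (A ++ x :: y :: (B ++ [m, m])) := by
  unfold ins
  rw [List.take_of_length_le (by simp; omega), List.drop_of_length_le (by simp; omega)]
  simp

lemma two_mid (T : Two h A x y B) (m : ℕ) (hm : x < m) : Two h (A ++ [x, m]) m y B := by
  have h1 := T.s1
  have h2 := T.yx
  refine ⟨?_, T.hy, by omega, T.s2⟩
  have e : h :: ((A ++ [x, m]) ++ [m]) = (h :: (A ++ [x])) ++ [m, m] := by simp
  rw [e, List.pairwise_append]
  refine ⟨h1, by simp, ?_⟩
  intro a ha b hb
  have hb' : b = m := by simpa using hb
  subst hb'
  have e2 : h :: (A ++ [x]) = (h :: A) ++ [x] := rfl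
  rw [e2] at h1 ha
  rcases List.mem_append.mp ha with ha | ha
  · have := (List.pairwise_append.mp h1).2.2 a ha x (by simp)
    omega
  · have : a = x := by simpa using ha
    omega

lemma two_end (T : Two h A x y B) (m : ℕ) (hm : ∀ z ∈ y :: B, z < m) :
    Two h A x y (B ++ [m, m]) := by
  refine ⟨T.s1, T.hy, T.yx, ?_⟩
  rw [show y :: (B ++ [m, m]) = (y :: B) ++ [m, m] by rfl, List.pairwise_append]
  refine ⟨T.s2, by simp, ?_⟩
  intro a ha b hb
  have hb' : b = m := by simpa using hb
  subst hb'
  exact (hm a ha).le

end

/-- the contribution of a word to the next value of the statistic -/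
def nxt (m : ℕ) (w : List ℕ) : ℕ :=
  ∑ i ∈ Finset.range w.length,
    if (spl w (i + 1)).Pairwise (· ≤ ·) then
      (if (ld (ins m w (i + 1))).length = 2 then c 3 (ins m w (i + 1)) else 0) else 0

lemma nxt_two (m : ℕ) (w : List ℕ) (h2 : (ld w).length = 2) (hs : (ld w).Pairwise (· ≤ ·))
    (hm : ∀ z ∈ w, z < m) : nxt m w = 2 * c 3 w + 2 := by
  obtain ⟨h, A, x, y, B, rfl, T⟩ := two_of w h2 hs
  have hlen : (h :: (A ++ x :: y :: B)).length = A.length + B.length + 3 := by
    simp; ring
  have hx : x < m := hm x (by simp)
  have hyx := T.yx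
  have hhy := T.hy
  have hld : ∀ i < (h :: (A ++ x :: y :: B)).length,
      ld (ins m (h :: (A ++ x :: y :: B)) (i + 1)) = spl (h :: (A ++ x :: y :: B)) (i + 1) :=
    fun i hi => ld_ins_spl m _ i hi hm
  have hsorted : ([h, y] : List ℕ).Pairwise (· ≤ ·) := List.pairwise_pair.mpr hhy
  have hl2 : ([h, y] : List ℕ).length = 2 := rfl
  unfold nxt
  rw [hlen, cut_sum]
  have f1 : ∀ i ∈ Finset.range (A.length + 1),
      (if (spl (h :: (A ++ x :: y :: B)) (i + 1)).Pairwise (· ≤ ·) then
      (if (ld (ins m (h :: (A ++ x :: y :: B)) (i + 1))).length = 2 then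
        c 3 (ins m (h :: (A ++ x :: y :: B)) (i + 1)) else 0) else 0) = 0 := by
    intro i hi
    have hi' := Finset.mem_range.mp hi
    rw [hld i (by omega), (cut_left T i hi').1]
    simp
  have f3 : ∀ j ∈ Finset.range B.length,
      (if (spl (h :: (A ++ x :: y :: B)) (A.length + 2 + j + 1)).Pairwise (· ≤ ·) then
      (if (ld (ins m (h :: (A ++ x :: y :: B)) (A.length + 2 + j + 1))).length = 2 then
        c 3 (ins m (h :: (A ++ x :: y :: B)) (A.length + 2 + j + 1)) else 0) else 0) = 0 := by
    intro j hj
    have hj' := Finset.mem_range.mp hj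
    rw [hld _ (by omega), (cut_right T j hj').1]
    simp
  rw [Finset.sum_congr rfl f1, Finset.sum_congr rfl f3, hld _ (by omega), hld _ (by omega),
    cut_mid T, cut_end T, if_pos hsorted, if_pos hl2, if_pos hsorted, if_pos hl2, ins_mid, ins_end,
    c3_two (two_mid T m hx), c3_two (two_end T m (fun z hz => hm z (by
      simp only [List.mem_cons, List.mem_append] at hz ⊢; tauto))), c3_two T]
  have hcx : ¬ x ≤ y := by omega
  have hcm : ¬ m ≤ y := by omega
  simp only [Finset.sum_const_zero, List.countP_append, List.countP_cons, List.countP_nil,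
    decide_eq_true_eq, hcx, hcm, if_false, List.length_append, List.length_cons, List.length_nil]
  ring

lemma nxt_one (m : ℕ) (w : List ℕ) (h1 : (ld w).length = 1)
    (hm : ∀ z ∈ w, z < m) : nxt m w = (w.length - 1) * (w.length - 2) := by
  cases w with
  | nil => simp [ld] at h1
  | cons a t =>
    have hs := sorted_of_ld a t h1
    unfold nxt
    rw [List.length_cons, Finset.sum_range_succ]
    have e2 : (ld (ins m (a :: t) (t.length + 1))).length = 1 := by
      rw [ld_ins_spl m _ _ (by simp) hm]
      unfold spl
      rw [List.take_of_length_le (by simp), List.drop_of_length_le (by simp), List.length_append,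
        h1]
      rfl
    rw [e2]
    have e1 : ∀ i ∈ Finset.range t.length, (if (spl (a :: t) (i + 1)).Pairwise (· ≤ ·) then
        (if (ld (ins m (a :: t) (i + 1))).length = 2 then c 3 (ins m (a :: t) (i + 1)) else 0)
        else 0) = t.length - 1 := by
      intro i hi
      have hi' := Finset.mem_range.mp hi
      obtain ⟨g1, g2⟩ := spl_sorted a t hs i hi'
      have g3 : ([a, t.getD i 0] : List ℕ).Pairwise (· ≤ ·) := List.pairwise_pair.mpr g2
      have g4 : ([a, t.getD i 0] : List ℕ).length = 2 := rfl
      rw [ld_ins_spl m _ _ (by simp; omega) hm, g1, if_pos g3, if_pos g4]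
      have hd : t.drop i = t.getD i 0 :: t.drop (i + 1) := by
        rw [List.drop_eq_getElem_cons hi', List.getD_eq_getElem _ _ hi']
      have e3 : ins m (a :: t) (i + 1) = a :: ((t.take i ++ [m]) ++ m :: t.getD i 0 :: t.drop (i + 1)) := by
        unfold ins
        rw [List.take_succ_cons, List.drop_succ_cons, hd]
        simp
      have hymem : t.getD i 0 ∈ t := by
        rw [List.getD_eq_getElem _ _ hi']; exact List.getElem_mem hi'
      have hym : t.getD i 0 < m := hm _ (List.mem_cons_of_mem _ hymem)
      have hst := (List.pairwise_cons.mp hs)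
      have T : Two a (t.take i ++ [m]) m (t.getD i 0) (t.drop (i + 1)) := by
        refine ⟨?_, g2, hym, ?_⟩
        · have e : a :: ((t.take i ++ [m]) ++ [m]) = (a :: t.take i) ++ [m, m] := by simp
          rw [e, List.pairwise_append]
          refine ⟨hs.sublist ((List.take_sublist i t).cons_cons a), by simp, ?_⟩
          intro u hu v hv
          have hv' : v = m := by simpa using hv
          subst hv'
          have : u ∈ a :: t := by
            rcases List.mem_cons.mp hu with rfl | hu
            · simp
            · exact List.mem_cons_of_mem _ (List.mem_of_mem_take hu)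
          exact (hm u this).le
        · rw [← hd]; exact hst.2.sublist (List.drop_sublist _ _)
      rw [e3, c3_two T]
      have hcm : ¬ m ≤ t.getD i 0 := by omega
      have hall : List.countP (fun z => decide (z ≤ t.getD i 0)) (t.take i) = i := by
        rw [List.countP_eq_length.mpr]
        · rw [List.length_take]; omega
        · intro z hz
          have hsp := hst.2
          rw [← List.take_append_drop i t, List.pairwise_append] at hsp
          have := hsp.2.2 z hz (t.getD i 0) (by rw [hd]; simp)
          simpa using this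
      simp only [List.countP_append, List.countP_cons, List.countP_nil,
        decide_eq_true_eq, hcm, if_false, List.length_drop]
      rw [hall]
      omega
    rw [Finset.sum_congr rfl e1]
    simp

/-! ### The recursion -/

/-- number of flattened Stirling permutations of order `n + 1` with `k` runs -/
def a (k n : ℕ) : ℕ := ∑ w ∈ Fl n, (if (ld w).length = k then 1 else 0)

/-- auxiliary statistic -/
def T (n : ℕ) : ℕ := ∑ w ∈ Fl n, (if (ld w).length = 2 then c 3 w else 0)

lemma ld_pos {n : ℕ} {w : List ℕ} (h : w ∈ Fl n) : 1 ≤ (ld w).length := by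
  have h1 := Fl_length h
  cases w with
  | nil => simp at h1
  | cons b t =>
    obtain ⟨s, hs⟩ := ld_cons b t
    rw [hs]; simp

lemma a1 (n : ℕ) : a 1 n = 1 := by
  induction n with
  | zero => decide
  | succ n ih =>
    have key : a 1 (n + 1) = a 1 n := by
      unfold a
      rw [sum_Fl_c]
      apply Finset.sum_congr rfl
      intro w hw
      have hp := ld_pos hw
      have hs := ((mem_Fl n w).mp hw).2
      by_cases h1 : (ld w).length = 1
      · have := c_same w hs
        rw [h1] at this
        rw [if_pos h1, this]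
      · rw [if_neg h1, c_other w 1 h1 (by omega)]
    rw [key, ih]

lemma a2 (n : ℕ) : a 2 (n + 1) = 2 * a 2 n + (2 * n + 1) := by
  have key : a 2 (n + 1) = ∑ w ∈ Fl n, (2 * (if (ld w).length = 2 then 1 else 0)
      + (2 * n + 1) * (if (ld w).length = 1 then 1 else 0)) := by
    unfold a
    rw [sum_Fl_c]
    apply Finset.sum_congr rfl
    intro w hw
    have hp := ld_pos hw
    have hl := Fl_length hw
    have hs := ((mem_Fl n w).mp hw).2
    by_cases h2 : (ld w).length = 2
    · have := c_same w hs
      rw [h2] at this
      rw [this, if_pos h2, if_neg (by omega)]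
      ring
    · by_cases h1 : (ld w).length = 1
      · rw [c_sorted w h1, hl, if_neg h2, if_pos h1]
        omega
      · rw [c_other w 2 h2 (by omega), if_neg h2, if_neg h1]
        ring
  rw [key, Finset.sum_add_distrib, ← Finset.mul_sum, ← Finset.mul_sum]
  have h1 := a1 n
  unfold a at h1 ⊢
  rw [h1]
  ring

lemma a3 (n : ℕ) : a 3 (n + 1) = 3 * a 3 n + T n := by
  have key : a 3 (n + 1) = ∑ w ∈ Fl n, (3 * (if (ld w).length = 3 then 1 else 0)
      + (if (ld w).length = 2 then c 3 w else 0)) := by
    unfold a
    rw [sum_Fl_c]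
    apply Finset.sum_congr rfl
    intro w hw
    have hs := ((mem_Fl n w).mp hw).2
    by_cases h2 : (ld w).length = 3
    · have := c_same w hs
      rw [h2] at this
      rw [this, if_pos h2, if_neg (by omega)]
    · by_cases h1 : (ld w).length = 2
      · rw [if_neg h2, if_pos h1]
        omega
      · rw [c_other w 3 h2 (by omega), if_neg h2, if_neg h1]
  rw [key, Finset.sum_add_distrib, ← Finset.mul_sum]
  rfl

lemma T_succ (n : ℕ) : T (n + 1) = 2 * T n + 2 * a 2 n + (2 * n + 1) * (2 * n) := by
  have key : T (n + 1) = ∑ w ∈ Fl n, (2 * (if (ld w).length = 2 then c 3 w else 0)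
      + 2 * (if (ld w).length = 2 then 1 else 0)
      + ((2 * n + 1) * (2 * n)) * (if (ld w).length = 1 then 1 else 0)) := by
    unfold T
    rw [sum_Fl]
    apply Finset.sum_congr rfl
    intro w hw
    have hl := Fl_length hw
    have hs := ((mem_Fl n w).mp hw).2
    have hm : ∀ z ∈ w, z < n + 2 := Fl_lt hw
    have hp := ld_pos hw
    change nxt (n + 2) w = _
    by_cases h2 : (ld w).length = 2
    · rw [nxt_two (n + 2) w h2 hs hm, if_pos h2, if_pos h2, if_neg (by omega)]
      ring
    · by_cases h1 : (ld w).length = 1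
      · rw [nxt_one (n + 2) w h1 hm, hl, if_neg h2, if_neg h2, if_pos h1,
          show 2 * (n + 1) - 1 = 2 * n + 1 by omega, show 2 * (n + 1) - 2 = 2 * n by omega]
        ring
      · rw [if_neg h2, if_neg h2, if_neg h1]
        unfold nxt
        rw [Finset.sum_eq_zero]
        · ring
        intro i hi
        have hi' := Finset.mem_range.mp hi
        rw [ld_ins_spl _ _ _ hi' hm]
        rcases (spl_cases w i hi').2 with h | h
        · rw [h, if_neg h2]; simp
        · have hne : (spl w (i + 1)).length ≠ 2 := by omega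
          simp [hne]
  rw [key, Finset.sum_add_distrib, Finset.sum_add_distrib, ← Finset.mul_sum, ← Finset.mul_sum,
    ← Finset.mul_sum]
  have h1 := a1 n
  unfold a at h1
  rw [h1]
  unfold T a
  ring

lemma closed2 (n : ℕ) : (a 2 n : ℤ) = 3 * 2 ^ n - 2 * n - 3 := by
  induction n with
  | zero => simp [a, Fl, ld]
  | succ n ih =>
    rw [a2]; push_cast; rw [ih]; ring

lemma closedT (n : ℕ) : (T n : ℤ) = (3 * n + 4) * 2 ^ n - 4 * n ^ 2 - 6 * n - 4 := by
  induction n with
  | zero => simp [T, Fl, ld]
  | succ n ih =>
    rw [T_succ]; push_cast; rw [ih, closed2]; ring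

lemma closed3 (n : ℕ) :
    2 * (a 3 n : ℤ) = 9 * 3 ^ n - (6 * n + 20) * 2 ^ n + 4 * n ^ 2 + 10 * n + 11 := by
  induction n with
  | zero => simp [a, Fl, ld]
  | succ n ih =>
    rw [a3]; push_cast; rw [mul_add, closedT]
    have : 2 * (3 * (a 3 n : ℤ)) = 3 * (2 * a 3 n) := by ring
    rw [this, ih]; ring

lemma flat3_ncard (n : ℕ) : (flat3 (n + 1)).ncard = a 3 n := by
  have e : flat3 (n + 1) = ((Fl n).filter fun w => (ld w).length = 3 : Finset (List ℕ)) := by
    ext w
    rw [Finset.coe_filter]
    unfold flat3
    rw [Set.mem_ofPred_eq, Set.mem_ofPred_eq, mem_Fl, flattened_iff, runs_length]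
    tauto
  rw [e, Set.ncard_coe_finset, Finset.card_filter]
  rfl

/-! ### The right-hand side -/

lemma inner_sum (M : ℕ) : (∑ j ∈ Finset.Icc 2 M, (M.choose j : ℤ)) = 2 ^ M - 1 - M := by
  have h := Nat.sum_range_choose M
  rcases Nat.eq_zero_or_pos M with rfl | hM
  · simp
  · have e : Finset.range (M + 1) = insert 0 (insert 1 (Finset.Icc 2 M)) := by
      ext j
      simp only [Finset.mem_range, Finset.mem_insert, Finset.mem_Icc]
      omega
    rw [e, Finset.sum_insert (by simp), Finset.sum_insert (by simp)] at h
    have h' : ((M.choose 0 + (M.choose 1 + ∑ x ∈ Finset.Icc 2 M, M.choose x) : ℕ) : ℤ)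
        = ((2 ^ M : ℕ) : ℤ) := by rw [h]
    push_cast at h'
    rw [Nat.choose_zero_right, Nat.choose_one_right] at h'
    push_cast at h'
    linarith

/-- the full weighted sum -/
lemma full_sum (N : ℕ) : 2 * (∑ k ∈ Finset.range (N + 1),
    (N.choose k : ℤ) * (2 ^ (N - k) - 1 - ((N - k : ℕ) : ℤ))) = 2 * 3 ^ N - 2 * 2 ^ N - N * 2 ^ N := by
  have e : ∑ k ∈ Finset.range (N + 1), (N.choose k : ℤ) * (2 ^ (N - k) - 1 - ((N - k : ℕ) : ℤ))
      = ∑ k ∈ Finset.range (N + 1), (N.choose k : ℤ) * (2 ^ k - 1 - (k : ℤ)) := by
    rw [← Finset.sum_range_reflect]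
    apply Finset.sum_congr rfl
    intro k hk
    have hk' := Finset.mem_range.mp hk
    have e1 : N + 1 - 1 - k = N - k := by omega
    have e2 : N - (N - k) = k := by omega
    rw [e1, e2, Nat.choose_symm (by omega)]
  rw [e]
  have h1 : ∑ k ∈ Finset.range (N + 1), (N.choose k : ℤ) * 2 ^ k = 3 ^ N := by
    have := add_pow (2 : ℤ) 1 N
    norm_num at this
    rw [this]
    apply Finset.sum_congr rfl
    intro k _; ring
  have h2 : ∑ k ∈ Finset.range (N + 1), (N.choose k : ℤ) = 2 ^ N := by
    exact_mod_cast Nat.sum_range_choose N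
  have h3 : 2 * ∑ k ∈ Finset.range (N + 1), (N.choose k : ℤ) * k = N * 2 ^ N := by
    have h := Nat.sum_range_mul_choose N
    have h' : ∑ k ∈ Finset.range (N + 1), (N.choose k : ℤ) * k = N * 2 ^ (N - 1) := by
      have : ((∑ i ∈ Finset.range (N + 1), i * N.choose i : ℕ) : ℤ) = ((N * 2 ^ (N - 1) : ℕ) : ℤ) := by
        rw [h]
      push_cast at this
      rw [← this]
      apply Finset.sum_congr rfl
      intro k _; ring
    rw [h']
    rcases Nat.eq_zero_or_pos N with rfl | hN
    · simp
    · obtain ⟨M, rfl⟩ : ∃ M, N = M + 1 := ⟨N - 1, by omega⟩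
      simp only [Nat.add_sub_cancel]
      ring
  have h4 : ∑ k ∈ Finset.range (N + 1), (N.choose k : ℤ) * (2 ^ k - 1 - (k : ℤ))
      = ∑ k ∈ Finset.range (N + 1), (N.choose k : ℤ) * 2 ^ k
        - ∑ k ∈ Finset.range (N + 1), (N.choose k : ℤ)
        - ∑ k ∈ Finset.range (N + 1), (N.choose k : ℤ) * k := by
    rw [← Finset.sum_sub_distrib, ← Finset.sum_sub_distrib]
    apply Finset.sum_congr rfl
    intro k _; ring
  rw [h4, h1, h2]
  linarith

/-- The two double sums. -/
lemma sumA (N : ℕ) : 2 * (∑ k ∈ Finset.Icc 1 N, (N.choose k : ℤ) *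
    ∑ j ∈ Finset.Icc 2 (N - k), ((N - k).choose j : ℤ))
      = 2 * 3 ^ N - (N + 4) * 2 ^ N + 2 * N + 2 := by
  have h := full_sum N
  have e : Finset.range (N + 1) = insert 0 (Finset.Icc 1 N) := by
    ext j
    simp only [Finset.mem_range, Finset.mem_insert, Finset.mem_Icc]
    omega
  rw [e, Finset.sum_insert (by simp)] at h
  have h2 : ∑ k ∈ Finset.Icc 1 N, (N.choose k : ℤ) *
      ∑ j ∈ Finset.Icc 2 (N - k), ((N - k).choose j : ℤ)
      = ∑ k ∈ Finset.Icc 1 N, (N.choose k : ℤ) * (2 ^ (N - k) - 1 - ((N - k : ℕ) : ℤ)) := by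
    apply Finset.sum_congr rfl
    intro k _
    rw [inner_sum]
  rw [h2]
  simp only [Nat.choose_zero_right, Nat.sub_zero] at h
  push_cast at h
  linarith

lemma sumB (N : ℕ) : 2 * (∑ k ∈ Finset.Icc 2 N, (N.choose k : ℤ) *
    ∑ j ∈ Finset.Icc 2 (N - k), ((N - k).choose j : ℤ))
      = 2 * 3 ^ N - (2 * N + 4) * 2 ^ N + 2 * N ^ 2 + 2 * N + 2 := by
  rcases Nat.eq_zero_or_pos N with rfl | hN
  · simp
  have h := sumA N
  have e : Finset.Icc 1 N = insert 1 (Finset.Icc 2 N) := by
    ext j
    simp only [Finset.mem_insert, Finset.mem_Icc]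
    omega
  rw [e, Finset.sum_insert (by simp), inner_sum, Nat.choose_one_right] at h
  obtain ⟨M, rfl⟩ : ∃ M, N = M + 1 := ⟨N - 1, by omega⟩
  simp only [Nat.add_sub_cancel] at h
  push_cast at h ⊢
  have e2 : (2 : ℤ) ^ (M + 1) = 2 * 2 ^ M := by ring
  rw [e2] at h ⊢
  linarith

lemma sumC (N : ℕ) : 2 * (∑ k ∈ Finset.Icc 3 N, (2 ^ (k - 1) - 2 : ℤ) * (N.choose k : ℤ))
      = 3 ^ N - 4 * 2 ^ N + 2 * N + 3 := by
  have h1 : ∑ k ∈ Finset.range (N + 1), (N.choose k : ℤ) * 2 ^ k = 3 ^ N := by
    have := add_pow (2 : ℤ) 1 N
    norm_num at this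
    rw [this]
    apply Finset.sum_congr rfl
    intro k _; ring
  have h2 : ∑ k ∈ Finset.range (N + 1), (N.choose k : ℤ) = 2 ^ N := by
    exact_mod_cast Nat.sum_range_choose N
  have h3 : ∑ k ∈ Finset.range (N + 1), (2 ^ k - 4 : ℤ) * (N.choose k : ℤ) = 3 ^ N - 4 * 2 ^ N := by
    rw [← h1, ← h2, Finset.mul_sum, ← Finset.sum_sub_distrib]
    apply Finset.sum_congr rfl
    intro k _; ring
  rcases Nat.lt_or_ge N 2 with hN | hN
  · interval_cases N <;> simp
  have e : Finset.range (N + 1) = insert 0 (insert 1 (insert 2 (Finset.Icc 3 N))) := by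
    ext j
    simp only [Finset.mem_range, Finset.mem_insert, Finset.mem_Icc]
    omega
  rw [e, Finset.sum_insert (by simp), Finset.sum_insert (by simp), Finset.sum_insert (by simp)] at h3
  have h4 : 2 * (∑ k ∈ Finset.Icc 3 N, (2 ^ (k - 1) - 2 : ℤ) * (N.choose k : ℤ))
      = ∑ k ∈ Finset.Icc 3 N, (2 ^ k - 4 : ℤ) * (N.choose k : ℤ) := by
    rw [Finset.mul_sum]
    apply Finset.sum_congr rfl
    intro k hk
    have hk' := Finset.mem_Icc.mp hk
    obtain ⟨m, rfl⟩ : ∃ m, k = m + 1 := ⟨k - 1, by omega⟩
    simp only [Nat.add_sub_cancel]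
    ring
  rw [h4]
  simp only [Nat.choose_zero_right, Nat.choose_one_right] at h3
  push_cast at h3
  linarith

/-- The right-hand side of the identity, with coefficient `q` in front of the second double sum. -/
def rhs (q n : ℕ) : ℕ :=
  2 * (∑ k ∈ Finset.Icc 1 (n - 1), (n - 1).choose k *
      ∑ j ∈ Finset.Icc 2 (n - 1 - k), (n - 1 - k).choose j)
    + q * (∑ k ∈ Finset.Icc 2 (n - 1), (n - 1).choose k *
      ∑ j ∈ Finset.Icc 2 (n - 1 - k), (n - 1 - k).choose j)
    + ∑ k ∈ Finset.Icc 3 (n - 1), (2 ^ (k - 1) - 2) * (n - 1).choose k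

lemma main (n : ℕ) (hn : 1 ≤ n) : (flat3 n).ncard = rhs 2 n := by
  obtain ⟨N, rfl⟩ : ∃ N, n = N + 1 := ⟨n - 1, by omega⟩
  rw [flat3_ncard]
  unfold rhs
  simp only [Nat.add_sub_cancel]
  have hc := closed3 N
  have hA := sumA N
  have hB := sumB N
  have hC := sumC N
  have e : ((∑ k ∈ Finset.Icc 3 N, (2 ^ (k - 1) - 2) * N.choose k : ℕ) : ℤ)
      = ∑ k ∈ Finset.Icc 3 N, (2 ^ (k - 1) - 2 : ℤ) * (N.choose k : ℤ) := by
    push_cast
    apply Finset.sum_congr rfl
    intro k hk
    have hk' := Finset.mem_Icc.mp hk
    have h2 : 2 ≤ 2 ^ (k - 1) := by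
      calc 2 = 2 ^ 1 := by norm_num
        _ ≤ 2 ^ (k - 1) := Nat.pow_le_pow_right (by norm_num) (by omega)
    rw [Nat.cast_sub h2]
    push_cast
    ring
  zify
  zify at e
  rw [e]
  linarith

/-- For every `n ≥ 1` the number of flattened Stirling permutations of order `n` with exactly three
runs is `2 ∑∑ + 2 ∑∑ + ∑` (the right-hand side of the identity with coefficient `2` in front of the
second double sum).  The identity with coefficient `1` in front of the second double sum fails for
`n = 5`: the number is `70` and the right-hand side is `64`. -/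
theorem result : (∀ n : ℕ, 1 ≤ n → (flat3 n).ncard = rhs 2 n) ∧
    (flat3 5).ncard = 70 ∧ rhs 1 5 = 64 := by
  refine ⟨main, ?_, by decide⟩
  rw [main 5 (by norm_num)]
  decide

end Pool.Agent.Results.MP_793dac_co.ThreeRuns
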